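import Pool.Agent.L0h60.QS.Final

set_option autoImplicit false

namespace Pool.Agent.Results.MP_a717c1_al.DirectSquareAll

/-- The direct (tensor) product of two graphs: `(i, α) ~ (j, β)` iff `i ~ j` and `α ~ β`. -/
def directProduct {V W : Type} (X : SimpleGraph V) (Y : SimpleGraph W) : SimpleGraph (V × W) where
  Adj a b := X.Adj a.1 b.1 ∧ Y.Adj a.2 b.2
  symm := ⟨fun _ _ h => ⟨h.1.symm, h.2.symm⟩⟩
  loopless := ⟨fun a h => X.loopless.irrefl a.1 h.1⟩

/-- A magic unitary over the unital C*-algebra `A`, with rows and columns indexed by `V`: the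
entries are self-adjoint projections and each row and each column sums to `1`. -/
structure IsMagicUnitary {V : Type} [Fintype V] {A : Type} [CStarAlgebra A]
    (u : Matrix V V A) : Prop where
  star_eq : ∀ x y, star (u x y) = u x y
  mul_self : ∀ x y, u x y * u x y = u x y
  row_sum : ∀ x, ∑ y, u x y = 1
  col_sum : ∀ y, ∑ x, u x y = 1

open Classical in
/-- The finite graph `X` has no quantum symmetry: for every unital C*-algebra `A` and every magic
unitary over `A` that commutes with the adjacency matrix, the entries commute pairwise. -/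
def NoQuantumSymmetry {V : Type} [Fintype V] (X : SimpleGraph V) : Prop :=
  ∀ (A : Type) [CStarAlgebra A] (u : Matrix V V A), IsMagicUnitary u →
    u * X.adjMatrix A = X.adjMatrix A * u → ∀ x y z w, u x y * u z w = u z w * u x y

theorem noQuantumSymmetry_iff {V : Type} [Fintype V] (X : SimpleGraph V) :
    NoQuantumSymmetry X ↔ Pool.Agent.H741.QS.NoQuantumSymmetry X := by
  constructor
  · intro h A _ u hu hc
    exact h A u ⟨hu.star_eq, hu.mul_self, hu.row_sum, hu.col_sum⟩ hc
  · intro h A _ u hu hc
    exact h A u ⟨hu.star_eq, hu.mul_self, hu.row_sum, hu.col_sum⟩ hc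

/-- For every finite nonempty graph `X`: the direct square of `X` has no quantum symmetry if and
only if `X` has just one vertex, or `X` is connected and not bipartite, distinct vertices of `X`
have distinct neighbourhoods, and `X` itself has no quantum symmetry. -/
theorem result (V : Type) [Fintype V] [Nonempty V] (X : SimpleGraph V) :
    NoQuantumSymmetry (directProduct X X) ↔
      (Fintype.card V = 1 ∨
        (X.Connected ∧ ¬ X.Colorable 2 ∧ (∀ x y, (∀ z, X.Adj x z ↔ X.Adj y z) → x = y) ∧
          NoQuantumSymmetry X)) := by
  rw [noQuantumSymmetry_iff, noQuantumSymmetry_iff]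
  exact Pool.Agent.L0h60.QS.full V X

end Pool.Agent.Results.MP_a717c1_al.DirectSquareAll
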